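import Mathlib
import Pool.Agent.Work.MP_db9399_all.Interface

/-!
# MP_db9399: block DE3
-/

set_option autoImplicit false

namespace Pool.Agent.Work.MP_db9399_all

open Finset Classical

universe u

namespace DE3

section general
variable {J : Type u} {n : ℕ}

lemma depOn_cs (e : J → Fin n → ℕ) (Y : Finset (J × Fin n)) {ω ω' : Cfg J n}
    (h : ∀ p ∈ Y, ω p.1 p.2 = ω' p.1 p.2) : cs e ω Y = cs e ω' Y := by
  unfold cs
  apply image_congr
  intro p hp
  unfold col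
  rw [h p hp]

lemma avoid (e : J → Fin n → ℕ) (ω : Cfg J n) (R Y Z : Finset (J × Fin n)) (hY : Y ⊆ R)
    (hZ : Z ⊆ R) (hYZ : Disjoint Y Z) (g m : ℕ) (hm : m + g ≤ Y.card)
    (hE : ¬ (m ≤ (cs e ω Y).card ∧ (Z.filter (fun p => col e ω p ∈ cs e ω Y)).card < g)) :
    (cs e ω R).card + g ≤ R.card := by
  by_cases h1 : m ≤ (cs e ω Y).card
  · have h2 : g ≤ (Z.filter (fun p => col e ω p ∈ cs e ω Y)).card := by
      by_contra hcon
      exact hE ⟨h1, not_le.1 hcon⟩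
    set H := Z.filter (fun p => col e ω p ∈ cs e ω Y) with hH
    have hHR : H ⊆ R := (filter_subset _ _).trans hZ
    have hsub : cs e ω R ⊆ cs e ω (R \ H) := by
      intro a ha
      unfold cs at ha
      rw [mem_image] at ha
      obtain ⟨p, hp, hpa⟩ := ha
      by_cases hpH : p ∈ H
      · have h3 : col e ω p ∈ cs e ω Y := (mem_filter.1 hpH).2
        unfold cs at h3
        rw [mem_image] at h3
        obtain ⟨q, hq, hqa⟩ := h3
        unfold cs
        rw [mem_image]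
        refine ⟨q, mem_sdiff.2 ⟨hY hq, fun hqH => ?_⟩, by rw [hqa, hpa]⟩
        exact (disjoint_left.1 hYZ hq) (mem_filter.1 hqH).1
      · unfold cs
        rw [mem_image]
        exact ⟨p, mem_sdiff.2 ⟨hp, hpH⟩, hpa⟩
    have h3 := card_le_card hsub
    have h4 : (cs e ω (R \ H)).card ≤ (R \ H).card := card_image_le
    have h5 := card_sdiff_add_card_eq_card hHR
    omega
  · push Not at h1
    have hsub : cs e ω R ⊆ cs e ω Y ∪ cs e ω (R \ Y) := by
      intro a ha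
      unfold cs at ha ⊢
      rw [← image_union]
      rw [union_sdiff_of_subset hY]
      exact ha
    have h3 := card_le_card hsub
    have h4 := card_union_le (cs e ω Y) (cs e ω (R \ Y))
    have h5 : (cs e ω (R \ Y)).card ≤ (R \ Y).card := card_image_le
    have h6 := card_sdiff_add_card_eq_card hY
    omega

end general

variable {V : Type u} [Fintype V] (X : DCtx V)

lemma pos_of_blk {z j : V} (h : X.blk z = some j) : X.pos z = (j, X.idx z) := by
  unfold DCtx.pos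
  rw [h]
  rfl

/-- a position is touched by at most two vertices -/
lemma card_le_two (A : Finset V) (hA : ∀ z ∈ A, X.blk z ≠ none) :
    A.card ≤ 2 * (A.image X.pos).card := by
  apply Finset.card_le_mul_card_image
  intro p _
  refine le_trans (card_le_card ?_) (X.cls2 p.1 p.2)
  intro z hz
  rw [mem_filter] at hz
  obtain ⟨j, hj⟩ := Option.ne_none_iff_exists'.1 (hA z hz.1)
  have h2 := hz.2
  rw [pos_of_blk X hj] at h2
  subst h2
  simp [bs, hj]

lemma image_vc (ω : Cfg V (X.Δ + 1)) (x : V) :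
    (dn X.G X.blk x).image (X.vc ω) = cs X.e ω (X.tch x) := by
  unfold cs DCtx.tch
  rw [image_image]
  rfl

lemma ex_nonneg (j : V) (s : Fin (X.Δ + 1)) : 0 ≤ X.ex j s :=
  Finset.sum_nonneg fun _ _ => Nat.cast_nonneg _

lemma ex_le (j : V) (s : Fin (X.Δ + 1)) : X.ex j s ≤ 4 / 10 ^ 6 * X.Δ := by
  unfold DCtx.ex
  have h1 : ∀ z ∈ (bs X.blk j).filter (fun z => X.idx z = s),
      (((nb X.G z \ bs X.blk j).card : ℕ) : ℝ) ≤ 2 * (1 / 10 ^ 6) * X.Δ := by
    intro z hz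
    exact X.dec.ext j z (mem_filter.1 hz).1
  refine (Finset.sum_le_card_nsmul _ _ _ h1).trans ?_
  rw [nsmul_eq_mul]
  have h2 : ((((bs X.blk j).filter (fun z => X.idx z = s)).card : ℕ) : ℝ) ≤ 2 := by
    exact_mod_cast X.cls2 j s
  have h3 : (0 : ℝ) ≤ 2 * (1 / 10 ^ 6) * X.Δ := by positivity
  nlinarith

lemma sum_ex (j : V) : ∑ s, X.ex j s = ∑ z ∈ bs X.blk j, ((nb X.G z \ bs X.blk j).card : ℝ) := by
  unfold DCtx.ex
  exact Finset.sum_fiberwise (bs X.blk j) X.idx (fun z => ((nb X.G z \ bs X.blk j).card : ℝ))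

lemma T_le (j : V) (s : Fin (X.Δ + 1)) : X.T j s ≤ 12 / 10 ^ 6 + 1 / 10 ^ 12 := by
  unfold DCtx.T
  have h1 := ex_le X j s
  have h2 : (0 : ℝ) < X.Δ + 1 := by positivity
  have h3 : 3 * X.ex j s / (X.Δ + 1) ≤ 12 / 10 ^ 6 := by
    rw [div_le_iff₀ h2]
    have : (0 : ℝ) ≤ X.Δ := Nat.cast_nonneg _
    nlinarith
  linarith

/-- cost of a set of positions -/
lemma sum_T_le (Q : Finset (V × Fin (X.Δ + 1))) :
    ∑ p ∈ Q, X.T p.1 p.2 ≤ Q.card * (12 / 10 ^ 6 + 1 / 10 ^ 12) := by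
  have h := Finset.sum_le_card_nsmul Q (fun p => X.T p.1 p.2) (12 / 10 ^ 6 + 1 / 10 ^ 12)
    (fun p _ => T_le X p.1 p.2)
  rwa [nsmul_eq_mul] at h

/-- cost of a set of positions in one block -/
lemma sum_T_le_block (i : V) (Q : Finset (V × Fin (X.Δ + 1))) (hQ : ∀ p ∈ Q, p.1 = i) :
    ∑ p ∈ Q, X.T p.1 p.2 ≤ 9 / 10 ^ 13 * X.Δ + Q.card * (1 / 10 ^ 12) := by
  have hΔ : (0 : ℝ) ≤ X.Δ := Nat.cast_nonneg _
  have h2 : (0 : ℝ) < X.Δ + 1 := by positivity
  have hinj : Set.InjOn Prod.snd (Q : Set (V × Fin (X.Δ + 1))) := by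
    intro p hp q hq hpq
    exact Prod.ext ((hQ p hp).trans (hQ q hq).symm) hpq
  have h1 : ∑ p ∈ Q, X.T p.1 p.2 = ∑ s ∈ Q.image Prod.snd, X.T i s := by
    rw [Finset.sum_image hinj]
    exact Finset.sum_congr rfl fun p hp => by rw [hQ p hp]
  rw [h1]
  unfold DCtx.T
  rw [Finset.sum_add_distrib, Finset.sum_const, nsmul_eq_mul, Finset.card_image_of_injOn hinj]
  have h3 : ∑ s ∈ Q.image Prod.snd, 3 * X.ex i s / (X.Δ + 1) ≤
      ∑ s, 3 * X.ex i s / (X.Δ + 1) := by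
    apply Finset.sum_le_sum_of_subset_of_nonneg (Finset.subset_univ _)
    intro s _ _
    have := ex_nonneg X i s
    positivity
  have h4 : ∑ s, 3 * X.ex i s / ((X.Δ : ℝ) + 1) ≤ 9 / 10 ^ 13 * X.Δ := by
    rw [← Finset.sum_div, ← Finset.mul_sum, sum_ex, div_le_iff₀ h2]
    have h5 := X.dec.edges i
    nlinarith
  linarith

/-- one event -/
lemma pack_of (hPE3 : Stmt_PE3.{u}) (x : V) (Y Z : Finset (V × Fin (X.Δ + 1)))
    (hY : Y ⊆ X.tch x) (hZ : Z ⊆ X.tch x) (hsep : ∀ p ∈ Y, ∀ q ∈ Z, p.1 ≠ q.1)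
    (hne : Y.Nonempty) (g r : ℕ) (hr : r + X.h + g ≤ Y.card) (hrn : r ≤ X.Δ + 1)
    (hg : (X.Δ : ℝ) / 10 ^ 29 ≤ g)
    (hnum : 2 ^ g * (1 - (r : ℝ) / (2 * ((X.Δ + 1 : ℕ) : ℝ))) ^ Z.card *
      Real.exp (2 * ∑ p ∈ Y ∪ Z, X.T p.1 p.2) ≤ Real.exp (-(X.Δ : ℝ) / 10 ^ 28)) :
    Pack X.T (X.tb x) (Real.exp (-(X.Δ : ℝ) / 10 ^ 28)) (fun ω =>
      (((dn X.G X.blk x).image (X.vc ω)).card : ℝ) + X.Δ / 10 ^ 29 ≤
        ((dn X.G X.blk x).card : ℝ)) := by
  refine ⟨PUnit.{u+1}, inferInstance, fun _ => Y ∪ Z, fun _ ω => r + X.h ≤ (cs X.e ω Y).card ∧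
      (Z.filter (fun p => col X.e ω p ∈ cs X.e ω Y)).card < g, ?_, ?_, ?_, ?_, ?_⟩
  · intro _ ω ω' hω
    have h1 : cs X.e ω Y = cs X.e ω' Y :=
      depOn_cs X.e Y (fun p hp => hω p (mem_union_left _ hp))
    have h2 : Z.filter (fun p => col X.e ω p ∈ cs X.e ω Y) =
        Z.filter (fun p => col X.e ω' p ∈ cs X.e ω' Y) := by
      apply filter_congr
      intro p hp
      rw [h1]
      unfold col
      rw [hω p (mem_union_right _ hp)]
    show (r + X.h ≤ (cs X.e ω Y).card ∧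
      (Z.filter (fun p => col X.e ω p ∈ cs X.e ω Y)).card < g) =
      (r + X.h ≤ (cs X.e ω' Y).card ∧
      (Z.filter (fun p => col X.e ω' p ∈ cs X.e ω' Y)).card < g)
    rw [h2, h1]
  · intro _
    exact hne.mono subset_union_left
  · intro _ p hp
    unfold DCtx.tb
    rw [mem_image]
    exact ⟨p, (union_subset hY hZ) hp, rfl⟩
  · rw [Fintype.sum_unique]
    refine le_trans ?_ hnum
    apply mul_le_mul_of_nonneg_right _ (Real.exp_pos _).le
    exact hPE3 V (X.Δ + 1) X.h X.e Y Z g r X.einj X.elt hsep hrn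
  · intro ω hω
    have hdisj : Disjoint Y Z := disjoint_left.2 fun p hp hq => hsep p hp p hq rfl
    have h1 := avoid X.e ω (X.tch x) Y Z hY hZ hdisj g (r + X.h) hr (hω PUnit.unit)
    have h2 : (X.tch x).card ≤ (dn X.G X.blk x).card := card_image_le
    have h3 : ((cs X.e ω (X.tch x)).card : ℝ) + g ≤ ((dn X.G X.blk x).card : ℝ) := by
      exact_mod_cast h1.trans h2
    rw [image_vc]
    linarith

/-- the split of the blocks -/
lemma split {ι : Type u} (f : ι → ℝ) (b : ℝ) (hb : 0 < b) (hf : ∀ i, f i < b) (A : Finset ι) :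
    ∑ i ∈ A, f i < b ∨ ∃ S ⊆ A, b ≤ ∑ i ∈ S, f i ∧ ∑ i ∈ S, f i ≤ 2 * b := by
  induction A using Finset.induction_on with
  | empty => left; simpa using hb
  | insert a A ha ih =>
    rcases ih with h | ⟨S, hS, h1, h2⟩
    · rw [Finset.sum_insert ha]
      by_cases h3 : f a + ∑ i ∈ A, f i < b
      · left; exact h3
      · right
        refine ⟨insert a A, Finset.Subset.refl _, ?_, ?_⟩
        · rw [Finset.sum_insert ha]; linarith
        · rw [Finset.sum_insert ha]; linarith [hf a]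
    · right
      exact ⟨S, hS.trans (subset_insert _ _), h1, h2⟩

/-- the block neighbours in the blocks of `S` -/
noncomputable def dS (x : V) (S : Finset V) : Finset V :=
  (dn X.G X.blk x).filter (fun z => ∃ j ∈ S, X.blk z = some j)

lemma dS_pos (x : V) (S : Finset V) :
    (dS X x S).image X.pos ⊆ (X.tch x).filter (fun p => p.1 ∈ S) := by
  intro p hp
  rw [mem_image] at hp
  obtain ⟨z, hz, rfl⟩ := hp
  unfold dS at hz
  rw [mem_filter] at hz
  obtain ⟨hz1, j, hj, hzj⟩ := hz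
  rw [mem_filter]
  refine ⟨?_, ?_⟩
  · unfold DCtx.tch
    exact mem_image_of_mem _ hz1
  · rw [pos_of_blk X hzj]
    exact hj

lemma dS_card (x : V) (S : Finset V) :
    (dS X x S).card ≤ 2 * ((X.tch x).filter (fun p => p.1 ∈ S)).card := by
  refine (card_le_two X (dS X x S) ?_).trans ?_
  · intro z hz
    unfold dS at hz
    obtain ⟨-, j, -, hj⟩ := mem_filter.1 hz
    rw [hj]
    simp
  · exact Nat.mul_le_mul_left _ (card_le_card (dS_pos X x S))

/-- the block neighbours in the blocks outside `S` -/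
noncomputable def dC (x : V) (S : Finset V) : Finset V :=
  (dn X.G X.blk x).filter (fun z => ¬ ∃ j ∈ S, X.blk z = some j)

lemma dC_pos (x : V) (S : Finset V) :
    (dC X x S).image X.pos ⊆ (X.tch x).filter (fun p => p.1 ∉ S) := by
  intro p hp
  rw [mem_image] at hp
  obtain ⟨z, hz, rfl⟩ := hp
  unfold dC at hz
  rw [mem_filter] at hz
  obtain ⟨hz1, hz2⟩ := hz
  have hz3 := hz1
  unfold dn at hz3
  rw [mem_filter] at hz3
  obtain ⟨j, hj⟩ := Option.ne_none_iff_exists'.1 hz3.2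
  rw [mem_filter]
  refine ⟨?_, ?_⟩
  · unfold DCtx.tch
    exact mem_image_of_mem _ hz1
  · rw [pos_of_blk X hj]
    intro hjS
    exact hz2 ⟨j, hjS, hj⟩

lemma dC_card (x : V) (S : Finset V) :
    (dC X x S).card ≤ 2 * ((X.tch x).filter (fun p => p.1 ∉ S)).card := by
  refine (card_le_two X (dC X x S) ?_).trans ?_
  · intro z hz
    unfold dC dn at hz
    exact (mem_filter.1 (mem_filter.1 hz).1).2
  · exact Nat.mul_le_mul_left _ (card_le_card (dC_pos X x S))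

lemma dS_add_dC (x : V) (S : Finset V) :
    (dS X x S).card + (dC X x S).card = (dn X.G X.blk x).card := by
  unfold dS dC
  exact Finset.card_filter_add_card_filter_not _

lemma dS_eq_sum (x : V) (S : Finset V) :
    (dS X x S).card = ∑ i ∈ S, (nb X.G x ∩ bs X.blk i).card := by
  have h : dS X x S = S.biUnion (fun i => nb X.G x ∩ bs X.blk i) := by
    ext z
    unfold dS dn bs
    simp only [mem_filter, mem_biUnion, mem_inter, mem_univ, true_and]
    constructor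
    · rintro ⟨⟨h1, h2⟩, j, hj, hz⟩
      exact ⟨j, hj, h1, hz⟩
    · rintro ⟨j, hj, h1, hz⟩
      refine ⟨⟨h1, ?_⟩, j, hj, hz⟩
      rw [hz]
      simp
  rw [h, Finset.card_biUnion]
  intro i _ j _ hij
  rw [Function.onFun, disjoint_left]
  intro z hz1 hz2
  unfold bs at hz1 hz2
  simp only [mem_inter, mem_filter, mem_univ, true_and] at hz1 hz2
  have := hz1.2.symm.trans hz2.2
  exact hij (Option.some_injective _ this)

/-- the parameters -/
lemma param (h : ℕ) (Δ : ℕ) (hΔ : 10 ^ 12 * (h + 2) ≤ Δ) : ∃ g r y : ℕ, r + h + g ≤ y ∧ r ≤ Δ + 1 ∧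
    (Δ : ℝ) / 10 ^ 29 ≤ g ∧ (g : ℝ) ≤ Δ / 10 ^ 29 + 1 ∧ y = ⌈(Δ : ℝ) / 800⌉₊ ∧
    0 ≤ 1 - (r : ℝ) / (2 * ((Δ + 1 : ℕ) : ℝ)) ∧
    1 - (r : ℝ) / (2 * ((Δ + 1 : ℕ) : ℝ)) ≤ Real.exp (-(1 / 1700)) := by
  have hD : (10 : ℝ) ^ 12 * (h + 2) ≤ Δ := by exact_mod_cast hΔ
  have hh : (0 : ℝ) ≤ h := Nat.cast_nonneg _
  have hD0 : (0 : ℝ) ≤ Δ := Nat.cast_nonneg _
  have g1 : (Δ : ℝ) / 10 ^ 29 ≤ (⌈(Δ : ℝ) / 10 ^ 29⌉₊ : ℝ) := Nat.le_ceil _
  have g2 : (⌈(Δ : ℝ) / 10 ^ 29⌉₊ : ℝ) < (Δ : ℝ) / 10 ^ 29 + 1 := Nat.ceil_lt_add_one (by positivity)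
  have y1 : (Δ : ℝ) / 800 ≤ (⌈(Δ : ℝ) / 800⌉₊ : ℝ) := Nat.le_ceil _
  have y2 : (⌈(Δ : ℝ) / 800⌉₊ : ℝ) < (Δ : ℝ) / 800 + 1 := Nat.ceil_lt_add_one (by positivity)
  set g := ⌈(Δ : ℝ) / 10 ^ 29⌉₊ with hg
  set y := ⌈(Δ : ℝ) / 800⌉₊ with hy
  have hle : h + g ≤ y := by
    have : (h : ℝ) + g ≤ y := by linarith
    exact_mod_cast this
  have hr : ((y - g - h : ℕ) : ℝ) = (y : ℝ) - g - h := by
    rw [Nat.cast_sub (by omega), Nat.cast_sub (by omega)]
  have hyn : y ≤ Δ + 1 := by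
    have : (y : ℝ) ≤ Δ + 1 := by linarith
    exact_mod_cast this
  refine ⟨g, y - g - h, y, by omega, by omega, g1, g2.le, rfl, ?_, ?_⟩
  · rw [hr]
    push_cast
    rw [sub_nonneg, div_le_one (by positivity)]
    have : (y : ℝ) ≤ Δ + 1 := by exact_mod_cast hyn
    have : (0 : ℝ) ≤ g := Nat.cast_nonneg _
    linarith
  · rw [hr]
    push_cast
    have h1 : (1 : ℝ) / 1700 ≤ ((y : ℝ) - g - h) / (2 * ((Δ : ℝ) + 1)) := by
      rw [div_le_div_iff₀ (by norm_num) (by positivity)]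
      linarith
    have h2 := Real.add_one_le_exp (-(1 / 1700 : ℝ))
    linarith

/-- the final estimate -/
lemma final {g z : ℕ} {a c D : ℝ} (ha0 : 0 ≤ a) (ha : a ≤ Real.exp (-(1 / 1700)))
    (h : (g : ℝ) - z / 1700 + c ≤ -D / 10 ^ 28) :
    2 ^ g * a ^ z * Real.exp c ≤ Real.exp (-D / 10 ^ 28) := by
  have h1 : (2 : ℝ) ^ g ≤ Real.exp g := by
    have h2 := Real.add_one_le_exp (1 : ℝ)
    have h3 : (2 : ℝ) ≤ Real.exp 1 := by linarith
    calc (2 : ℝ) ^ g ≤ (Real.exp 1) ^ g := by gcongr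
      _ = Real.exp g := by rw [← Real.exp_nat_mul, mul_one]
  have h2 : a ^ z ≤ Real.exp (-(z / 1700)) := by
    calc a ^ z ≤ (Real.exp (-(1 / 1700))) ^ z := by gcongr
      _ = Real.exp (-(z / 1700)) := by
        rw [← Real.exp_nat_mul]
        congr 1
        ring
  calc 2 ^ g * a ^ z * Real.exp c ≤ Real.exp g * Real.exp (-(z / 1700)) * Real.exp c := by
        gcongr
    _ = Real.exp ((g : ℝ) - z / 1700 + c) := by
        rw [← Real.exp_add, ← Real.exp_add]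
        congr 1
    _ ≤ _ := Real.exp_le_exp.2 h

end DE3

open DE3 in
/-- **Block DE3** -/
theorem stmt_DE3 (hPE3 : Stmt_PE3.{u}) : Stmt_DE3.{u} := by
  intro h
  refine ⟨10 ^ 12 * (h + 2), ?_⟩
  intro V _ X x hXh hΔ hx hdn hconc
  obtain ⟨g, r, y, p1, p2, p3, p4, p5, p6, p7⟩ := param h X.Δ hΔ
  have hD : (10 : ℝ) ^ 12 * (h + 2) ≤ X.Δ := by exact_mod_cast hΔ
  have hh : (0 : ℝ) ≤ h := Nat.cast_nonneg _
  have hD0 : (0 : ℝ) < X.Δ := by linarith
  have hDbig : (10 : ℝ) ^ 12 ≤ X.Δ := by linarith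
  have y1 : (X.Δ : ℝ) / 800 ≤ y := by rw [p5]; exact Nat.le_ceil _
  have y2 : (y : ℝ) < (X.Δ : ℝ) / 800 + 1 := by rw [p5]; exact Nat.ceil_lt_add_one (by positivity)
  have ypos : 0 < y := by
    have : (0 : ℝ) < y := by linarith
    exact_mod_cast this
  have hsplit : ∀ S : Finset V, ((dS X x S).card : ℝ) + ((dC X x S).card : ℝ) =
      ((dn X.G X.blk x).card : ℝ) := fun S => by exact_mod_cast dS_add_dC X x S
  have hS2 : ∀ S : Finset V, ((dS X x S).card : ℝ) ≤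
      2 * (((X.tch x).filter (fun p => p.1 ∈ S)).card : ℝ) := fun S => by
    exact_mod_cast dS_card X x S
  have hC2 : ∀ S : Finset V, ((dC X x S).card : ℝ) ≤
      2 * (((X.tch x).filter (fun p => p.1 ∉ S)).card : ℝ) := fun S => by
    exact_mod_cast dC_card X x S
  by_cases hc : ∃ i, (X.Δ : ℝ) / 400 ≤ ((nb X.G x ∩ bs X.blk i).card : ℝ)
  · obtain ⟨i, hi⟩ := hc
    have e1 : ((dS X x {i}).card : ℝ) = ((nb X.G x ∩ bs X.blk i).card : ℝ) := by
      rw [dS_eq_sum, Finset.sum_singleton]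
    have e2 := hsplit {i}
    have e3 := hS2 {i}
    have e4 := hC2 {i}
    have e5 := hconc i
    have hy : y ≤ ((X.tch x).filter (fun p => p.1 ∈ ({i} : Finset V))).card := by
      rw [p5]
      exact Nat.ceil_le.2 (by linarith)
    have hz : ⌈(X.Δ : ℝ) / (16 * 10 ^ 6)⌉₊ ≤
        ((X.tch x).filter (fun p => p.1 ∉ ({i} : Finset V))).card :=
      Nat.ceil_le.2 (by linarith)
    obtain ⟨Y, hY, hYc⟩ := Finset.exists_subset_card_eq hy
    obtain ⟨Z, hZ, hZc⟩ := Finset.exists_subset_card_eq hz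
    have z1 : (X.Δ : ℝ) / (16 * 10 ^ 6) ≤ Z.card := by rw [hZc]; exact Nat.le_ceil _
    have z2 : (Z.card : ℝ) < (X.Δ : ℝ) / (16 * 10 ^ 6) + 1 := by
      rw [hZc]; exact Nat.ceil_lt_add_one (by positivity)
    refine pack_of X hPE3 x Y Z (hY.trans (filter_subset _ _)) (hZ.trans (filter_subset _ _)) ?_
      (card_pos.1 (by omega)) g r (by rw [hXh, hYc]; exact p1) p2 p3 ?_
    · intro p hp q hq hpq
      have h1 := (mem_filter.1 (hY hp)).2
      have h2 := (mem_filter.1 (hZ hq)).2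
      rw [hpq] at h1
      exact h2 h1
    · apply final p6 p7
      have c1 : ∑ p ∈ Y ∪ Z, X.T p.1 p.2 ≤ ∑ p ∈ Y, X.T p.1 p.2 + ∑ p ∈ Z, X.T p.1 p.2 := by
        have h0 : ∑ p ∈ Y ∪ Z, X.T p.1 p.2 = ∑ p ∈ Y, X.T p.1 p.2 + ∑ p ∈ Z, X.T p.1 p.2 := by
          apply Finset.sum_union
          rw [disjoint_left]
          intro p hp hq
          exact (mem_filter.1 (hZ hq)).2 (mem_filter.1 (hY hp)).2
        exact h0.le
      have c2 := sum_T_le_block X i Y (fun p hp => by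
        have := (mem_filter.1 (hY hp)).2
        rwa [mem_singleton] at this)
      have c3 := sum_T_le X Z
      rw [hYc] at c2
      nlinarith
  · push Not at hc
    have hb : (0 : ℝ) < (X.Δ : ℝ) / 400 := by positivity
    have hfull : ((dS X x univ).card : ℝ) = ((dn X.G X.blk x).card : ℝ) := by
      unfold dS
      congr 2
      rw [filter_eq_self]
      intro z hz
      unfold dn at hz
      obtain ⟨j, hj⟩ := Option.ne_none_iff_exists'.1 (mem_filter.1 hz).2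
      exact ⟨j, mem_univ _, hj⟩
    have hsum : ∀ S : Finset V, ∑ i ∈ S, ((nb X.G x ∩ bs X.blk i).card : ℝ) =
        ((dS X x S).card : ℝ) := fun S => by
      rw [dS_eq_sum]
      push_cast
      rfl
    rcases split (fun i => ((nb X.G x ∩ bs X.blk i).card : ℝ)) _ hb hc univ with h1 | ⟨S, -, h1, h2⟩
    · exfalso
      rw [hsum, hfull] at h1
      linarith
    rw [hsum] at h1 h2
    have e2 := hsplit S
    have e3 := hS2 S
    have e4 := hC2 S
    have hy : y ≤ ((X.tch x).filter (fun p => p.1 ∈ S)).card := by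
      rw [p5]
      exact Nat.ceil_le.2 (by linarith)
    have hz : y ≤ ((X.tch x).filter (fun p => p.1 ∉ S)).card := by
      rw [p5]
      exact Nat.ceil_le.2 (by linarith)
    obtain ⟨Y, hY, hYc⟩ := Finset.exists_subset_card_eq hy
    obtain ⟨Z, hZ, hZc⟩ := Finset.exists_subset_card_eq hz
    refine pack_of X hPE3 x Y Z (hY.trans (filter_subset _ _)) (hZ.trans (filter_subset _ _)) ?_
      (card_pos.1 (by omega)) g r (by rw [hXh, hYc]; exact p1) p2 p3 ?_
    · intro p hp q hq hpq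
      have h1 := (mem_filter.1 (hY hp)).2
      have h2 := (mem_filter.1 (hZ hq)).2
      rw [hpq] at h1
      exact h2 h1
    · apply final p6 p7
      have c3 := sum_T_le X (Y ∪ Z)
      have c4 : ((Y ∪ Z).card : ℝ) ≤ 2 * y := by
        have := card_union_le Y Z
        rw [hYc, hZc] at this
        have h5 : ((Y ∪ Z).card : ℝ) ≤ y + y := by exact_mod_cast this
        linarith
      rw [hZc]
      nlinarith

end Pool.Agent.Work.MP_db9399_all

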