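import Mathlib
import Pool.Agent.Work.MP_db9399_all.Interface
import Pool.Agent.Work.MP_db9399_co.Defs

/-!
# MP_db9399: block FIN, the total colouring from MVT, VIZ and GRE
-/

set_option autoImplicit false

namespace Pool.Agent.Work.MP_db9399_all

open Finset Classical
open _root_.MP_db9399_co

universe u

namespace FIN

variable {V : Type u} [Fintype V]

lemma mem_nb {G : SimpleGraph V} {v w : V} : w ∈ nb G v ↔ G.Adj v w := by
  unfold nb
  simp

variable {G : SimpleGraph V} {H : G.Subgraph}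

omit [Fintype V] in
lemma adj_of_adj (hH : IsDistThreeMatching H) {u v : V} (hu : u ∈ H.verts) (hv : v ∈ H.verts)
    (h : G.Adj u v) : H.Adj u v := by
  by_contra hcon
  have h1 := hH.2 u hu v hv h.ne hcon
  have h2 : G.edist u v ≤ ((SimpleGraph.Walk.cons h SimpleGraph.Walk.nil).length : ℕ) :=
    SimpleGraph.Walk.edist_le _
  have h3 := h1.trans h2
  simp only [SimpleGraph.Walk.length_cons, SimpleGraph.Walk.length_nil] at h3
  have : (3 : ℕ) ≤ 0 + 1 := by exact_mod_cast h3
  omega

omit [Fintype V] in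
lemma adj_of_common (hH : IsDistThreeMatching H) {u v w : V} (hu : u ∈ H.verts) (hv : v ∈ H.verts)
    (huv : u ≠ v) (h : G.Adj w u) (h' : G.Adj w v) : H.Adj u v := by
  by_contra hcon
  have h1 := hH.2 u hu v hv huv hcon
  have h2 : G.edist u v ≤
      ((SimpleGraph.Walk.cons h.symm (SimpleGraph.Walk.cons h' SimpleGraph.Walk.nil)).length : ℕ) :=
    SimpleGraph.Walk.edist_le _
  have h3 := h1.trans h2
  simp only [SimpleGraph.Walk.length_cons, SimpleGraph.Walk.length_nil] at h3
  have : (3 : ℕ) ≤ 0 + 1 + 1 := by exact_mod_cast h3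
  omega

omit [Fintype V] in
lemma unique_partner (hH : IsDistThreeMatching H) {v w w' : V} (h : H.Adj v w) (h' : H.Adj v w') :
    w = w' := by
  obtain ⟨x, hx, hux⟩ := hH.1 (H.edge_vert h)
  rw [hux w h, hux w' h']

/-- at most two neighbours in `H` -/
lemma card_nbH (hH : IsDistThreeMatching H) (v : V) :
    ((nb G v).filter (fun x => x ∈ H.verts)).card ≤ 2 := by
  by_contra hcon
  push Not at hcon
  obtain ⟨a, b, c, ha, hb, hc, hab, hac, hbc⟩ := Finset.two_lt_card_iff.1 hcon
  rw [mem_filter, mem_nb] at ha hb hc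
  have h1 := adj_of_common hH ha.2 hb.2 hab ha.1 hb.1
  have h2 := adj_of_common hH ha.2 hc.2 hac ha.1 hc.1
  exact hbc (unique_partner hH h1 h2)

/-- the colour of the edge of `H` at `v` -/
noncomputable def He {k : ℕ} (H : G.Subgraph) (t₀ : Sym2 V → Fin k) (v : V) : Finset ℕ :=
  (univ.filter (fun w => H.Adj v w)).image (fun w => (t₀ s(v, w) : ℕ))

lemma mem_He {k : ℕ} {t₀ : Sym2 V → Fin k} {v w : V} (h : H.Adj v w) :
    (t₀ s(v, w) : ℕ) ∈ He H t₀ v :=
  mem_image.2 ⟨w, by simp [h], rfl⟩

lemma He_card {k : ℕ} (hH : IsDistThreeMatching H) (t₀ : Sym2 V → Fin k) (v : V) :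
    (He H t₀ v).card ≤ 1 := by
  refine card_image_le.trans ?_
  rw [card_le_one]
  intro a ha b hb
  simp only [mem_filter, mem_univ, true_and] at ha hb
  exact unique_partner hH ha hb

lemma verts_of_He {k : ℕ} {t₀ : Sym2 V → Fin k} {v : V} {a : ℕ} (h : a ∈ He H t₀ v) :
    v ∈ H.verts := by
  unfold He at h
  obtain ⟨w, hw, -⟩ := mem_image.1 h
  simp only [mem_filter, mem_univ, true_and] at hw
  exact H.edge_vert hw

end FIN

open FIN in
/-- **Block FIN** -/
theorem stmt_FIN (hMVT : Stmt_MVT.{u}) (hVIZ : Stmt_VIZ.{u}) (hGRE : Stmt_GRE.{u}) :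
    ∃ C : ℕ, ∀ (V : Type u) [Fintype V] (G : SimpleGraph V) (Δ : ℕ), (∀ v, (nb G v).card ≤ Δ) →
      ∀ (H : G.Subgraph), IsDistThreeMatching H → ∀ k : ℕ, Δ + C ≤ k →
        EveryTotalColoringExtends H (Fin k) := by
  obtain ⟨C₁, K, hM⟩ := hMVT 2
  refine ⟨C₁ + 1 + 2 * (K + 4) + 4, ?_⟩
  intro V _ G Δ hΔ H hH k hk c₀ t₀ h₀
  obtain ⟨t, tsymm, tlt, tinj⟩ := hVIZ G Δ hΔ
  -- the vertex colouring
  set F : V → Finset ℕ := fun v => ((nb G v).filter (fun x => x ∈ H.verts)).image
    (fun x => (c₀ x : ℕ)) with hF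
  have hFc : ∀ v, (F v).card ≤ 2 := fun v => card_image_le.trans (card_nbH hH v)
  obtain ⟨c, clt, cprop, cF, cload⟩ := hM G Δ t F hΔ tsymm tinj hFc
  set c' : V → ℕ := fun v => if v ∈ H.verts then (c₀ v : ℕ) else c v with hc'
  have c'in : ∀ v, v ∈ H.verts → c' v = c₀ v := fun v hv => by simp only [hc', hv, if_true]
  have c'out : ∀ v, v ∉ H.verts → c' v = c v := fun v hv => by simp only [hc', hv, if_false]
  have c'lt : ∀ v, c' v < k := by
    intro v
    by_cases hv : v ∈ H.verts
    · rw [c'in v hv]; exact (c₀ v).2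
    · rw [c'out v hv]
      have := clt v
      omega
  have c'prop : ∀ v w, G.Adj v w → c' v ≠ c' w := by
    have key : ∀ v w, G.Adj v w → v ∈ H.verts → w ∉ H.verts → c' v ≠ c' w := by
      intro v w h hv hw heq
      rw [c'in v hv, c'out w hw] at heq
      apply cF w
      rw [← heq]
      exact mem_image.2 ⟨v, mem_filter.2 ⟨mem_nb.2 h.symm, hv⟩, rfl⟩
    intro v w h
    by_cases hv : v ∈ H.verts <;> by_cases hw : w ∈ H.verts
    · rw [c'in v hv, c'in w hw]
      intro heq
      exact h₀.vertex v w (adj_of_adj hH hv hw h) (Fin.ext heq)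
    · exact key v w h hv hw
    · exact (key w v h.symm hw hv).symm
    · rw [c'out v hv, c'out w hw]
      exact cprop v w h
  -- the rejected edges
  set N := Δ + C₁ + 1 with hN
  obtain ⟨R, hR⟩ : ∃ R : SimpleGraph V, ∀ v x, R.Adj v x ↔ G.Adj v x ∧ ¬ H.Adj v x ∧
      (t v x = c' v ∨ t v x = c' x ∨ t v x ∈ He H t₀ v ∨ t v x ∈ He H t₀ x) :=
    ⟨{ Adj := fun v x => G.Adj v x ∧ ¬ H.Adj v x ∧ (t v x = c' v ∨ t v x = c' x ∨
        t v x ∈ He H t₀ v ∨ t v x ∈ He H t₀ x)
       symm := ⟨by
        rintro v x ⟨h1, h2, h3⟩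
        refine ⟨h1.symm, fun h => h2 h.symm, ?_⟩
        rw [tsymm x v]
        tauto⟩
       loopless := ⟨fun v h => h.1.ne rfl⟩ }, fun v x => Iff.rfl⟩
  have hone : ∀ v, ∀ S : Finset ℕ, S.card ≤ 1 →
      ((nb G v).filter (fun x => t v x ∈ S)).card ≤ 1 := by
    intro v S hS
    rw [card_le_one]
    intro a ha b hb
    rw [mem_filter] at ha hb
    exact tinj v ha.1 hb.1 (card_le_one.1 hS _ ha.2 _ hb.2)
  have hRdeg : ∀ v, (nb R v).card ≤ K + 4 := by
    intro v
    have hsub : nb R v ⊆ ((nb G v).filter (fun x => t v x ∈ ({c' v} : Finset ℕ))) ∪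
        ((nb G v).filter (fun x => c x = t v x)) ∪
        ((nb G v).filter (fun x => x ∈ H.verts)) ∪
        ((nb G v).filter (fun x => t v x ∈ He H t₀ v)) := by
      intro x hx
      rw [mem_nb, hR] at hx
      obtain ⟨h1, h2, h3⟩ := hx
      have h1' := mem_nb.2 h1
      simp only [mem_union, mem_filter, h1', true_and, mem_singleton]
      rcases h3 with h | h | h | h
      · exact Or.inl (Or.inl (Or.inl h))
      · by_cases hxH : x ∈ H.verts
        · exact Or.inl (Or.inr hxH)
        · rw [c'out x hxH] at h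
          exact Or.inl (Or.inl (Or.inr h.symm))
      · exact Or.inr h
      · exact Or.inl (Or.inr (verts_of_He h))
    have b1 := hone v {c' v} (by simp)
    have b2 := cload v
    have b3 := card_nbH hH v
    have b4 := hone v (He H t₀ v) (He_card hH t₀ v)
    refine (card_le_card hsub).trans ?_
    refine (card_union_le _ _).trans ?_
    refine (Nat.add_le_add_right (card_union_le _ _) _).trans ?_
    refine (Nat.add_le_add_right (Nat.add_le_add_right (card_union_le _ _) _) _).trans ?_
    omega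
  -- recolouring
  let f : V → V → Finset ℕ := fun v w => ({c' v} ∪ {c' w}) ∪ (He H t₀ v ∪ He H t₀ w)
  obtain ⟨t', t'symm, t'prop, t'inj⟩ := hGRE R (K + 4) 4 N f hRdeg
    (fun v w => by
      simp only [f]
      rw [union_comm {c' v}, union_comm (He H t₀ v)])
    (fun v w => by
      have a1 := card_union_le ({c' v} ∪ {c' w}) (He H t₀ v ∪ He H t₀ w)
      have a2 := card_union_le ({c' v} : Finset ℕ) {c' w}
      have a3 := card_union_le (He H t₀ v) (He H t₀ w)
      have a4 := He_card hH t₀ v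
      have a5 := He_card hH t₀ w
      rw [card_singleton, card_singleton] at a2
      simp only [f]
      omega)
  -- the final edge colouring
  let T : V → V → ℕ := fun v w => if H.Adj v w then (t₀ s(v, w) : ℕ) else
    if R.Adj v w then t' v w else t v w
  have TH : ∀ v w, H.Adj v w → T v w = t₀ s(v, w) := fun v w h => by simp only [T, h, if_true]
  have TR : ∀ v w, ¬ H.Adj v w → R.Adj v w → T v w = t' v w := fun v w h h' => by
    simp only [T, h, h', if_true, if_false]
  have TO : ∀ v w, ¬ H.Adj v w → ¬ R.Adj v w → T v w = t v w := fun v w h h' => by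
    simp only [T, h, h', if_false]
  have Tsymm : ∀ v w, T v w = T w v := by
    intro v w
    by_cases h1 : H.Adj v w
    · rw [TH v w h1, TH w v h1.symm, Sym2.eq_swap]
    have h1' : ¬ H.Adj w v := fun h => h1 h.symm
    by_cases h2 : R.Adj v w
    · rw [TR v w h1 h2, TR w v h1' h2.symm, t'symm v w]
    · have h2' : ¬ R.Adj w v := fun h => h2 h.symm
      rw [TO v w h1 h2, TO w v h1' h2', tsymm v w]
  have Tlt : ∀ v w, G.Adj v w → T v w < k := by
    intro v w _
    by_cases h1 : H.Adj v w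
    · rw [TH v w h1]; exact (t₀ _).2
    by_cases h2 : R.Adj v w
    · rw [TR v w h1 h2]
      have := (t'prop v w h2).2.1
      omega
    · rw [TO v w h1 h2]
      have := tlt v w
      omega
  have Tedge : ∀ u v w, G.Adj u v → G.Adj u w → v ≠ w → T u v ≠ T u w := by
    have keyH : ∀ u v w, G.Adj u w → v ≠ w → H.Adj u v → T u v ≠ T u w := by
      intro u v w hw hne h1
      have h2 : ¬ H.Adj u w := fun h2 => hne (unique_partner hH h1 h2)
      rw [TH u v h1]
      by_cases h3 : R.Adj u w
      · rw [TR u w h2 h3]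
        intro heq
        apply (t'prop u w h3).2.2
        rw [← heq]
        simp only [f]
        exact mem_union_right _ (mem_union_left _ (mem_He h1))
      · rw [TO u w h2 h3]
        intro heq
        apply h3
        rw [hR]
        refine ⟨hw, h2, Or.inr (Or.inr (Or.inl ?_))⟩
        rw [← heq]
        exact mem_He h1
    have keyR : ∀ u v w, ¬ H.Adj u v → ¬ H.Adj u w → R.Adj u v → ¬ R.Adj u w →
        T u v ≠ T u w := by
      intro u v w h1 h2 h3 h4
      rw [TR u v h1 h3, TO u w h2 h4]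
      have h5 := (t'prop u v h3).1
      have h6 := tlt u w
      omega
    intro u v w hv hw hne
    by_cases h1 : H.Adj u v
    · exact keyH u v w hw hne h1
    by_cases h2 : H.Adj u w
    · exact (keyH u w v hv hne.symm h2).symm
    by_cases h3 : R.Adj u v <;> by_cases h4 : R.Adj u w
    · rw [TR u v h1 h3, TR u w h2 h4]
      intro heq
      exact hne (t'inj u (mem_nb.2 h3) (mem_nb.2 h4) heq)
    · exact keyR u v w h1 h2 h3 h4
    · exact (keyR u w v h2 h1 h4 h3).symm
    · rw [TO u v h1 h3, TO u w h2 h4]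
      intro heq
      exact hne (tinj u (mem_nb.2 hv) (mem_nb.2 hw) heq)
  have Tinc : ∀ u v, G.Adj u v → T u v ≠ c' u := by
    intro u v h
    by_cases h1 : H.Adj u v
    · rw [TH u v h1, c'in u (H.edge_vert h1)]
      intro heq
      exact h₀.incidence u v h1 (Fin.ext heq)
    by_cases h2 : R.Adj u v
    · rw [TR u v h1 h2]
      intro heq
      apply (t'prop u v h2).2.2
      rw [heq]
      simp only [f]
      exact mem_union_left _ (mem_union_left _ (mem_singleton_self _))
    · rw [TO u v h1 h2]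
      intro heq
      apply h2
      rw [hR]
      exact ⟨h, h1, Or.inl heq⟩
  -- transfer to `Fin k`
  have hkpos : 0 < k := by omega
  let fi : ℕ → Fin k := fun n => if h : n < k then ⟨n, h⟩ else ⟨0, hkpos⟩
  have hfi : ∀ n, n < k → ((fi n : Fin k) : ℕ) = n := fun n hn => by simp only [fi, hn, dif_pos]
  have hfi' : ∀ a : Fin k, fi (a : ℕ) = a := fun a => Fin.ext (hfi _ a.2)
  have hne : ∀ a b, a < k → b < k → a ≠ b → fi a ≠ fi b := by
    intro a b ha hb hab heq
    apply hab
    have := congrArg Fin.val heq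
    rwa [hfi a ha, hfi b hb] at this
  refine ⟨fun v => fi (c' v), Sym2.lift ⟨fun v w => fi (T v w), fun v w => congrArg fi (Tsymm v w)⟩,
    ⟨?_, ?_, ?_⟩, ?_, ?_⟩
  · intro u v h
    exact hne _ _ (c'lt u) (c'lt v) (c'prop u v h)
  · intro u v w h h' hvw
    simp only [Sym2.lift_mk]
    exact hne _ _ (Tlt u v h) (Tlt u w h') (Tedge u v w h h' hvw)
  · intro u v h
    simp only [Sym2.lift_mk]
    exact hne _ _ (Tlt u v h) (c'lt u) (Tinc u v h)
  · intro v hv
    show fi (c' v) = c₀ v
    rw [c'in v hv, hfi']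
  · intro e he
    induction e using Sym2.ind with
    | _ v w =>
      rw [SimpleGraph.Subgraph.mem_edgeSet] at he
      simp only [Sym2.lift_mk]
      rw [TH v w he, hfi']

/-- **Block FIN** with `G.maxDegree` -/
theorem fin_maxDegree (hMVT : Stmt_MVT.{u}) (hVIZ : Stmt_VIZ.{u}) (hGRE : Stmt_GRE.{u}) :
    ∃ C : ℕ, ∀ (V : Type u) [Fintype V] (G : SimpleGraph V) [DecidableRel G.Adj]
      (H : G.Subgraph), IsDistThreeMatching H → ∀ k : ℕ, G.maxDegree + C ≤ k →
        EveryTotalColoringExtends H (Fin k) := by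
  obtain ⟨C, hC⟩ := stmt_FIN hMVT hVIZ hGRE
  refine ⟨C, ?_⟩
  intro V _ G _ H hH k hk
  refine hC V G G.maxDegree (fun v => ?_) H hH k hk
  have h : nb G v = G.neighborFinset v := by
    ext w
    simp [nb]
  rw [h, SimpleGraph.card_neighborFinset_eq_degree]
  exact G.degree_le_maxDegree v

end Pool.Agent.Work.MP_db9399_all

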