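import Mathlib
import Pool.Agent.Work.MP_db9399_all.Interface

/-!
# MP_db9399: block SP3
-/

set_option autoImplicit false

namespace Pool.Agent.Work.MP_db9399_all

open Finset Classical

universe u

namespace SP3

variable {V : Type u} [Fintype V]

lemma mem_nb {G : SimpleGraph V} {v w : V} : w ∈ nb G v ↔ G.Adj v w := by
  unfold nb
  simp

lemma av_card {G : SimpleGraph V} {Δ N k : ℕ} {F : V → Finset ℕ} {c : V → ℕ} {U : Finset V}
    (hN : Δ + k + 1 ≤ N) (hF : ∀ v, (F v).card ≤ k) (x : V) :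
    Δ + 1 ≤ (av G N F c U x).card + ((nb G x \ U).image c).card := by
  unfold av
  have h1 := le_card_sdiff (F x) (range N)
  have h2 := le_card_sdiff ((nb G x \ U).image c) (range N \ F x)
  rw [card_range] at h1
  have h3 := hF x
  omega

end SP3

open SP3 in
/-- **Block SP3** -/
theorem stmt_SP3 (hCNT : Stmt_CNT.{u}) : Stmt_SP3.{u} := by
  intro γ hγ
  obtain ⟨K, hK⟩ := hCNT γ hγ
  refine ⟨K + K, ?_⟩
  intro V _ G Δ N k t F P c U hΔ hN hdeg hF hc hA
  have hΔr : (0 : ℝ) < Δ := by exact_mod_cast hΔ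
  set Ua := U.filter (fun x => ¬ P x) with hUa
  set Ub := U.filter (fun x => P x) with hUb
  have hUab : ∀ x ∈ U, x ∈ Ua ∨ x ∈ Ub := by
    intro x hx
    by_cases h : P x
    · right; exact mem_filter.2 ⟨hx, h⟩
    · left; exact mem_filter.2 ⟨hx, h⟩
  have hmemU : ∀ x, x ∉ U ∨ x ∈ Ua ∨ x ∈ Ub := by
    intro x
    by_cases h : x ∈ U
    · right; exact hUab x h
    · left; exact h
  -- stage a
  have ha : ∀ x ∈ Ua, ((nb G x ∩ Ua).card : ℝ) + γ * Δ ≤ ((av G N F c U x).card : ℝ) := by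
    intro x hx
    obtain ⟨hxU, hxP⟩ := mem_filter.1 hx
    have h1 := (hA x hxU).2 hxP
    have h2 := av_card (G := G) (c := c) (U := U) hN hF x
    have h3 : (Δ : ℝ) + 1 ≤ (av G N F c U x).card + ((nb G x \ U).image c).card := by
      exact_mod_cast h2
    have h4 : nb G x ∩ Ua = (nb G x ∩ U).filter (fun y => ¬ P y) := by
      ext y
      simp only [hUa, mem_inter, mem_filter]
      tauto
    rw [h4]
    linarith
  obtain ⟨c1, hc1L, hc1p, hc1t⟩ := hK G Δ t Ua (av G N F c U) hΔ hdeg ha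
  -- stage b
  have hb : ∀ x ∈ Ub, ((nb G x ∩ Ub).card : ℝ) + γ * Δ ≤
      ((av G N F c U x \ (nb G x ∩ Ua).image c1).card : ℝ) := by
    intro x hx
    obtain ⟨hxU, hxP⟩ := mem_filter.1 hx
    have h1 := (hA x hxU).1 hxP
    have h2 := av_card (G := G) (c := c) (U := U) hN hF x
    have h4 := le_card_sdiff ((nb G x ∩ Ua).image c1) (av G N F c U x)
    have h5 : ((nb G x ∩ Ua).image c1).card ≤ (nb G x ∩ Ua).card := card_image_le
    have h6 : (nb G x ∩ Ua).card + (nb G x ∩ Ub).card = (nb G x ∩ U).card := by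
      rw [← card_union_of_disjoint]
      · congr 1
        ext y
        simp only [hUa, hUb, mem_union, mem_inter, mem_filter]
        tauto
      · rw [disjoint_left]
        intro y hy1 hy2
        simp only [hUa, hUb, mem_inter, mem_filter] at hy1 hy2
        tauto
    have h7 : Δ + 1 + (nb G x ∩ Ub).card ≤ (av G N F c U x \ (nb G x ∩ Ua).image c1).card +
        ((nb G x \ U).image c).card + (nb G x ∩ U).card := by omega
    have h8 : (Δ : ℝ) + 1 + (nb G x ∩ Ub).card ≤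
        ((av G N F c U x \ (nb G x ∩ Ua).image c1).card : ℝ) +
        ((nb G x \ U).image c).card + (nb G x ∩ U).card := by exact_mod_cast h7
    linarith
  obtain ⟨c2, hc2L, hc2p, hc2t⟩ := hK G Δ t Ub
    (fun x => av G N F c U x \ (nb G x ∩ Ua).image c1) hΔ hdeg hb
  have hUaU : ∀ x ∈ Ua, x ∈ U := fun x hx => (mem_filter.1 hx).1
  have hUbU : ∀ x ∈ Ub, x ∈ U := fun x hx => (mem_filter.1 hx).1
  have hdis : ∀ x ∈ Ua, x ∉ Ub := fun x hx hx' => (mem_filter.1 hx).2 (mem_filter.1 hx').2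
  let c' : V → ℕ := fun x => if x ∈ Ua then c1 x else if x ∈ Ub then c2 x else c x
  have e0 : ∀ x, x ∉ U → c' x = c x := by
    intro x hx
    have h1 : x ∉ Ua := fun h => hx (hUaU x h)
    have h2 : x ∉ Ub := fun h => hx (hUbU x h)
    simp only [c', h1, h2, if_false]
  have e1 : ∀ x ∈ Ua, c' x = c1 x := by
    intro x hx
    simp only [c', hx, if_true]
  have e2 : ∀ x ∈ Ub, c' x = c2 x := by
    intro x hx
    have h1 : x ∉ Ua := fun h => hdis x h hx
    simp only [c', hx, h1, if_true, if_false]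
  have m1 : ∀ x ∈ Ua, c1 x < N ∧ c1 x ∉ F x ∧ ∀ y, G.Adj x y → y ∉ U → c y ≠ c1 x := by
    intro x hx
    have h := hc1L x hx
    unfold av at h
    simp only [mem_sdiff, mem_range, mem_image, not_exists, not_and] at h
    exact ⟨h.1.1, h.1.2, fun y hy hyU => h.2 y ⟨mem_nb.2 hy, hyU⟩⟩
  have m2 : ∀ x ∈ Ub, c2 x < N ∧ c2 x ∉ F x ∧ (∀ y, G.Adj x y → y ∉ U → c y ≠ c2 x) ∧
      ∀ y, G.Adj x y → y ∈ Ua → c1 y ≠ c2 x := by
    intro x hx
    have h := hc2L x hx
    simp only [mem_sdiff (s := av G N F c U x)] at h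
    obtain ⟨h1, h2⟩ := h
    unfold av at h1
    simp only [mem_sdiff, mem_range, mem_image, not_exists, not_and] at h1
    simp only [mem_image, not_exists, not_and] at h2
    exact ⟨h1.1.1, h1.1.2, fun y hy hyU => h1.2 y ⟨mem_nb.2 hy, hyU⟩,
      fun y hy hyU => h2 y (mem_inter.2 ⟨mem_nb.2 hy, hyU⟩)⟩
  refine ⟨c', e0, ⟨?_, ?_, ?_⟩, ?_⟩
  · intro x _
    rcases hmemU x with h | h | h
    · rw [e0 x h]; exact hc.lt x h
    · rw [e1 x h]; exact (m1 x h).1
    · rw [e2 x h]; exact (m2 x h).1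
  · intro x _
    rcases hmemU x with h | h | h
    · rw [e0 x h]; exact hc.fb x h
    · rw [e1 x h]; exact (m1 x h).2.1
    · rw [e2 x h]; exact (m2 x h).2.1
  · intro x y _ _ hxy
    rcases hmemU x with h | h | h <;> rcases hmemU y with h' | h' | h'
    · rw [e0 x h, e0 y h']; exact hc.pc x y h h' hxy
    · rw [e0 x h, e1 y h']; exact (m1 y h').2.2 x hxy.symm h
    · rw [e0 x h, e2 y h']; exact (m2 y h').2.2.1 x hxy.symm h
    · rw [e1 x h, e0 y h']; exact ((m1 x h).2.2 y hxy h').symm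
    · rw [e1 x h, e1 y h']; exact hc1p x h y h' hxy
    · rw [e1 x h, e2 y h']; exact (m2 y h').2.2.2 x hxy.symm h
    · rw [e2 x h, e0 y h']; exact ((m2 x h).2.2.1 y hxy h').symm
    · rw [e2 x h, e1 y h']; exact ((m2 x h).2.2.2 y hxy h').symm
    · rw [e2 x h, e2 y h']; exact hc2p x h y h' hxy
  · intro v
    have hsub : (nb G v ∩ U).filter (fun x => c' x = t v x) ⊆
        ((nb G v ∩ Ua).filter (fun x => c1 x = t v x)) ∪
        ((nb G v ∩ Ub).filter (fun x => c2 x = t v x)) := by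
      intro x hx
      obtain ⟨h1, h2⟩ := mem_filter.1 hx
      obtain ⟨h3, h4⟩ := mem_inter.1 h1
      rw [mem_union]
      rcases hUab x h4 with h | h
      · left
        rw [e1 x h] at h2
        exact mem_filter.2 ⟨mem_inter.2 ⟨h3, h⟩, h2⟩
      · right
        rw [e2 x h] at h2
        exact mem_filter.2 ⟨mem_inter.2 ⟨h3, h⟩, h2⟩
    refine (card_le_card hsub).trans ((card_union_le _ _).trans ?_)
    exact Nat.add_le_add (hc1t v) (hc2t v)

end Pool.Agent.Work.MP_db9399_all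

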